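import Pool.Agent.R376.PPd

/-! The power product expansion of the partition generating function: existence and
uniqueness of the integer sequence, and its sign pattern modulo 8. -/

namespace Pool.Agent.Results.MP_f3871b_nt.SignPattern

open Finset PowerSeries Pool.Agent.R376.PP

/-- the sequence, by recursion -/
noncomputable def nn (m : ℕ) : ℤ :=
  (Fintype.card (Nat.Partition m) : ℤ)
    - coeff m (∏ k ∈ (Ico 1 m).attach, (1 + C (nn k.1) * X ^ k.1 : PowerSeries ℤ))
termination_by m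
decreasing_by exact (Finset.mem_Ico.1 k.2).2

lemma nn_eq (m : ℕ) : nn m = (Fintype.card (Nat.Partition m) : ℤ)
    - coeff m (∏ k ∈ Ico 1 m, (1 + C (nn k) * X ^ k : PowerSeries ℤ)) := by
  rw [nn]
  congr 2
  exact Finset.prod_attach (Ico 1 m) (fun k => (1 + C (nn k) * X ^ k : PowerSeries ℤ))

lemma coeff_zero_prod (n : ℕ → ℤ) (N : ℕ) :
    coeff 0 (∏ k ∈ Ico 1 N, (1 + C (n k) * X ^ k : PowerSeries ℤ)) = 1 := by
  rw [coeff_zero_eq_constantCoeff, map_prod]
  apply Finset.prod_eq_one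
  intro k hk
  have hk1 := (Finset.mem_Ico.1 hk).1
  rw [map_add, map_one, map_mul, map_pow, constantCoeff_X, zero_pow (by omega), mul_zero, add_zero]

lemma exists_seq : IsPowerProduct nn := by
  intro N m hmN
  rw [coeff_prod_stable (fun k => (1 + C (nn k) * X ^ k : PowerSeries ℤ)) (fun k => C (nn k))
    (fun k _ => by ring) m m N le_rfl hmN]
  rcases Nat.eq_zero_or_pos m with rfl | hm
  · simp
  · obtain ⟨m', rfl⟩ : ∃ m', m = m' + 1 := ⟨m - 1, by omega⟩
    rw [Finset.prod_Icc_succ_top (by omega), mul_add, mul_one, map_add]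
    have h1 : (∏ k ∈ Icc 1 m', (1 + C (nn k) * X ^ k : PowerSeries ℤ)) * (C (nn (m' + 1)) * X ^ (m' + 1))
        = C (nn (m' + 1)) * (X ^ (m' + 1) * ∏ k ∈ Icc 1 m', (1 + C (nn k) * X ^ k : PowerSeries ℤ)) := by
      ring
    have h2 : Icc 1 m' = Ico 1 (m' + 1) := by
      ext x
      simp only [Finset.mem_Icc, Finset.mem_Ico]
      omega
    rw [h1, coeff_C_mul, coeff_X_pow_mul', if_pos le_rfl, Nat.sub_self, h2, coeff_zero_prod, mul_one]
    have h3 := nn_eq (m' + 1)
    linarith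

lemma unique_seq (n n' : ℕ → ℤ) (hn : IsPowerProduct n) (hn' : IsPowerProduct n') (m : ℕ)
    (hm : 1 ≤ m) : n m = n' m := by
  induction m using Nat.strong_induction_on with
  | _ m ih =>
    have h1 := recur n hn m hm
    have h2 := recur n' hn' m hm
    have h3 : ∑ k ∈ m.properDivisors, (-1) ^ (m / k) * (k : ℤ) * n k ^ (m / k)
        = ∑ k ∈ m.properDivisors, (-1) ^ (m / k) * (k : ℤ) * n' k ^ (m / k) := by
      apply Finset.sum_congr rfl
      intro k hk
      have hk' := Nat.mem_properDivisors.1 hk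
      rw [ih k hk'.2 (Nat.pos_of_dvd_of_pos hk'.1 hm)]
    rw [h3, ← h2] at h1
    exact mul_left_cancel₀ (by exact_mod_cast (by omega : m ≠ 0)) h1

/-- There is an integer sequence `n` with `∑ p(m) X^m = ∏_{k ≥ 1} (1 + n(k) X^k)`, its values at
`k ≥ 1` are unique, and for every such sequence and every `k ≥ 1`:
`n(8k+2) < 0`, `n(8k+4) < 0`, `n(8k+6) < 0`, `n(8k) > 0`. -/
theorem result :
    (∃ n : ℕ → ℤ, IsPowerProduct n) ∧
    (∀ n n' : ℕ → ℤ, IsPowerProduct n → IsPowerProduct n' → ∀ k, 1 ≤ k → n k = n' k) ∧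
    (∀ n : ℕ → ℤ, IsPowerProduct n → ∀ k : ℕ, 1 ≤ k →
      n (8 * k + 2) < 0 ∧ n (8 * k + 4) < 0 ∧ n (8 * k + 6) < 0 ∧ 0 < n (8 * k)) := by
  refine ⟨⟨nn, exists_seq⟩, fun n n' hn hn' k hk => unique_seq n n' hn hn' k hk, ?_⟩
  intro n hn k hk
  have h2 := (signs n hn (4 * k + 1) (by omega)).2 (by omega)
  have h4 := (signs n hn (4 * k + 2) (by omega)).2 (by omega)
  have h6 := (signs n hn (4 * k + 3) (by omega)).2 (by omega)
  have h8 := (signs n hn (4 * k) (by omega)).1 (by omega)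
  rw [show 2 * (4 * k + 1) = 8 * k + 2 by ring] at h2
  rw [show 2 * (4 * k + 2) = 8 * k + 4 by ring] at h4
  rw [show 2 * (4 * k + 3) = 8 * k + 6 by ring] at h6
  rw [show 2 * (4 * k) = 8 * k by ring] at h8
  exact ⟨h2, h4, h6, h8⟩

end Pool.Agent.Results.MP_f3871b_nt.SignPattern
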